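import Mathlib

set_option autoImplicit false

open Finset

namespace Pool.Agent.Results.MP_f19a21_co.CyclePowers

open Classical in
theorem dense_common {A B : Type} [Fintype A] [Fintype B] (R : A → B → Prop)
    (κ : ℝ) (hκ : 0 < κ) (hκ1 : κ ≤ 1) (h : ℕ) (hA : 4 * (h : ℝ) / κ ≤ Fintype.card A)
    (hA0 : 0 < Fintype.card A)
    (hd : κ * Fintype.card A * Fintype.card B ≤ (#{p : A × B | R p.1 p.2} : ℝ)) :
    ∃ S : Finset A, S.card = h ∧
      (κ / 2) * (κ / 4) ^ h * Fintype.card B ≤ (#{b : B | ∀ a ∈ S, R a b} : ℝ) := by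
  set a : ℝ := (Fintype.card A : ℝ) with ha
  have ha0 : 0 < a := by rw [ha]; exact_mod_cast hA0
  have h4 : 4 * (h : ℝ) ≤ κ * a := by
    rw [div_le_iff₀ hκ] at hA
    linarith
  have hha : (h : ℝ) ≤ a := by
    have : (0:ℝ) ≤ h := by positivity
    nlinarith
  have hha' : h ≤ Fintype.card A := by rw [ha] at hha; exact_mod_cast hha
  set deg : B → ℕ := fun b => #{x : A | R x b} with hdeg
  have hdegle : ∀ b, (deg b : ℝ) ≤ a := by
    intro b
    rw [ha]
    exact_mod_cast Finset.card_le_univ _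
  have hsum : ∑ b : B, (deg b : ℝ) = (#{p : A × B | R p.1 p.2} : ℝ) := by
    have : ∑ b : B, deg b = #{p : A × B | R p.1 p.2} := by
      simp only [hdeg, Finset.card_filter]
      rw [Finset.sum_comm, ← Finset.univ_product_univ, Finset.sum_product]
    rw [← this]; push_cast; rfl
  set B' : Finset B := {b : B | κ * a / 2 ≤ (deg b : ℝ)} with hB'
  have hB'card : κ / 2 * Fintype.card B ≤ (B'.card : ℝ) := by
    have h1 : ∑ b : B, (deg b : ℝ) ≤ B'.card * a + Fintype.card B * (κ * a / 2) := by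
      rw [← Finset.sum_filter_add_sum_filter_not univ (fun b => κ * a / 2 ≤ (deg b : ℝ))]
      have h2 : ∑ b ∈ univ.filter (fun b => κ * a / 2 ≤ (deg b : ℝ)), (deg b : ℝ) ≤ B'.card * a := by
        rw [← nsmul_eq_mul]
        exact Finset.sum_le_card_nsmul _ _ _ (fun b _ => hdegle b)
      have h3 : ∑ b ∈ univ.filter (fun b => ¬ κ * a / 2 ≤ (deg b : ℝ)), (deg b : ℝ) ≤
          Fintype.card B * (κ * a / 2) := by
        calc _ ≤ ((univ.filter (fun b => ¬ κ * a / 2 ≤ (deg b : ℝ))).card : ℝ) * (κ * a / 2) := by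
              rw [← nsmul_eq_mul]
              refine Finset.sum_le_card_nsmul _ _ _ (fun b hb => ?_)
              rw [Finset.mem_filter] at hb
              exact (not_le.1 hb.2).le
          _ ≤ _ := by
              have : ((univ.filter (fun b => ¬ κ * a / 2 ≤ (deg b : ℝ))).card : ℝ) ≤
                  Fintype.card B := by exact_mod_cast Finset.card_le_univ _
              have h0 : 0 ≤ κ * a / 2 := by positivity
              exact mul_le_mul_of_nonneg_right this h0
      linarith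
    rw [hsum] at h1
    have h2 : κ / 2 * Fintype.card B * a ≤ B'.card * a := by nlinarith
    exact le_of_mul_le_mul_right h2 ha0
  -- double counting
  have hcount : ∑ S ∈ powersetCard h (univ : Finset A), #{b : B | ∀ x ∈ S, R x b} =
      ∑ b : B, (deg b).choose h := by
    simp only [Finset.card_filter]
    rw [Finset.sum_comm]
    refine Finset.sum_congr rfl fun b _ => ?_
    rw [← Finset.card_filter, ← Finset.card_powersetCard]
    congr 1
    ext S
    simp only [mem_filter, mem_powersetCard, subset_univ, true_and]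
    constructor
    · rintro ⟨h1, h2⟩
      exact ⟨fun x hx => by simpa using h2 x hx, h1⟩
    · rintro ⟨h1, h2⟩
      exact ⟨h2, fun x hx => by simpa using h1 hx⟩
  by_contra hcon
  push Not at hcon
  set κ1 : ℝ := (κ / 2) * (κ / 4) ^ h with hκ1def
  have hκ1pos : 0 < κ1 := by positivity
  have hlt : ∑ S ∈ powersetCard h (univ : Finset A), (#{b : B | ∀ x ∈ S, R x b} : ℝ) <
      ((Fintype.card A).choose h : ℝ) * (κ1 * Fintype.card B) := by
    have : ((Fintype.card A).choose h : ℝ) * (κ1 * Fintype.card B) =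
        ∑ S ∈ powersetCard h (univ : Finset A), (κ1 * Fintype.card B) := by
      rw [Finset.sum_const, Finset.card_powersetCard, nsmul_eq_mul, Finset.card_univ]
    rw [this]
    apply Finset.sum_lt_sum_of_nonempty
    · rw [← Finset.card_pos, Finset.card_powersetCard, Finset.card_univ]
      exact Nat.choose_pos hha'
    · intro S hS
      rw [mem_powersetCard] at hS
      exact hcon S hS.2
  have hge : κ1 * Fintype.card B * (a ^ h / h.factorial) ≤
      ∑ S ∈ powersetCard h (univ : Finset A), (#{b : B | ∀ x ∈ S, R x b} : ℝ) := by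
    have e : ∑ S ∈ powersetCard h (univ : Finset A), (#{b : B | ∀ x ∈ S, R x b} : ℝ) =
        ∑ b : B, ((deg b).choose h : ℝ) := by exact_mod_cast hcount
    rw [e]
    have h1 : ∑ b ∈ B', ((κ * a / 4) ^ h / h.factorial : ℝ) ≤ ∑ b ∈ B', ((deg b).choose h : ℝ) := by
      refine Finset.sum_le_sum fun b hb => ?_
      rw [hB', Finset.mem_filter] at hb
      have h2 := hb.2
      have h3 : ((deg b + 1 - h : ℕ) ^ h : ℝ) ≤ h.factorial * (deg b).choose h := by
        have := Nat.pow_sub_le_descFactorial (deg b) h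
        rw [Nat.descFactorial_eq_factorial_mul_choose] at this
        exact_mod_cast this
      have h5 : (κ * a / 4) ≤ ((deg b + 1 - h : ℕ) : ℝ) := by
        have h6 : (h:ℝ) ≤ κ * a / 4 := by linarith
        have h7 : (h : ℝ) ≤ (deg b : ℝ) := by linarith
        have h8 : h ≤ deg b := by exact_mod_cast h7
        rw [Nat.cast_sub (by omega)]
        push_cast
        linarith
      rw [div_le_iff₀ (by positivity)]
      calc (κ * a / 4) ^ h ≤ ((deg b + 1 - h : ℕ) : ℝ) ^ h := by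
            apply pow_le_pow_left₀ (by positivity) h5
        _ ≤ h.factorial * (deg b).choose h := h3
        _ = _ := by ring
    have h2 : ∑ b ∈ B', ((deg b).choose h : ℝ) ≤ ∑ b : B, ((deg b).choose h : ℝ) :=
      Finset.sum_le_sum_of_subset_of_nonneg (subset_univ _) (fun _ _ _ => by positivity)
    rw [Finset.sum_const, nsmul_eq_mul] at h1
    refine le_trans ?_ (h1.trans h2)
    have h3 : κ1 * Fintype.card B * (a ^ h / h.factorial) =
        (κ / 2 * Fintype.card B) * ((κ * a / 4) ^ h / h.factorial) := by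
      rw [hκ1def, show κ * a / 4 = (κ / 4) * a by ring, mul_pow]
      ring
    rw [h3]
    exact mul_le_mul_of_nonneg_right hB'card (by positivity)
  have hchoose : ((Fintype.card A).choose h : ℝ) ≤ a ^ h / h.factorial := by
    have := Nat.choose_le_pow_div (α := ℝ) h (Fintype.card A)
    simpa [ha] using this
  have : ((Fintype.card A).choose h : ℝ) * (κ1 * Fintype.card B) ≤
      κ1 * Fintype.card B * (a ^ h / h.factorial) := by
    rw [mul_comm]
    exact mul_le_mul_of_nonneg_left hchoose (by positivity)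
  linarith



theorem dense_common' {A B : Type} [Fintype A] [Fintype B] (R : A → B → Prop)
    (κ : ℝ) (hκ : 0 < κ) (hκ1 : κ ≤ 1) (h : ℕ) (hA : 4 * (h : ℝ) / κ ≤ Fintype.card A)
    (hA0 : 0 < Fintype.card A)
    (hd : κ * Fintype.card A * Fintype.card B ≤ ({p : A × B | R p.1 p.2}.ncard : ℝ)) :
    ∃ S : Finset A, S.card = h ∧
      (κ / 2) * (κ / 4) ^ h * Fintype.card B ≤ ({b : B | ∀ a ∈ S, R a b}.ncard : ℝ) := by
  classical
  have e1 : {p : A × B | R p.1 p.2}.ncard = #{p : A × B | R p.1 p.2} := by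
    rw [← Set.ncard_coe_finset]; congr 1; ext p; simp
  rw [e1] at hd
  obtain ⟨S, hS, h2⟩ := dense_common R κ hκ hκ1 h hA hA0 (by convert hd)
  refine ⟨S, hS, ?_⟩
  have e2 : {b : B | ∀ a ∈ S, R a b}.ncard = #{b : B | ∀ a ∈ S, R a b} := by
    rw [← Set.ncard_coe_finset]; congr 1; ext p; simp
  rw [e2]
  convert h2

theorem contained_of_many_triangles {W : Type} [Fintype W] (H : SimpleGraph W)
    (hH : H.Colorable 3) (κ : ℝ) (hκ : 0 < κ) (hκ1 : κ ≤ 1) :
    ∃ M0 : ℕ, ∀ (V : Type) [Fintype V] [DecidableEq V] (G : SimpleGraph V) [DecidableRel G.Adj],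
      M0 ≤ Fintype.card V →
      κ * (Fintype.card V : ℝ) ^ 3 ≤ (#(G.cliqueFinset 3) : ℝ) → H.IsContained G := by
  classical
  set h := Fintype.card W with hh
  set κ1 : ℝ := (κ / 2) * (κ / 4) ^ h with hκ1def
  have hκ1pos : 0 < κ1 := by positivity
  have hle : ∀ x : ℝ, 0 < x → x ≤ 1 → (x / 2) * (x / 4) ^ h ≤ 1 := by
    intro x hx hx1
    have h1 : (x / 4) ^ h ≤ 1 := pow_le_one₀ (by positivity) (by linarith)
    have h2 : 0 ≤ (x / 4) ^ h := by positivity
    nlinarith
  have hκ1le : κ1 ≤ 1 := hle κ hκ hκ1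
  set κ2 : ℝ := (κ1 / 2) * (κ1 / 4) ^ h with hκ2def
  have hκ2pos : 0 < κ2 := by positivity
  refine ⟨⌈4 * (h : ℝ) / κ⌉₊ + ⌈4 * (h : ℝ) / κ1⌉₊ + ⌈(h : ℝ) / κ2⌉₊ + 1, ?_⟩
  intro V _ _ G _ hM htri
  have hV0 : 0 < Fintype.card V := by omega
  have hA1 : 4 * (h : ℝ) / κ ≤ Fintype.card V := by
    refine (Nat.le_ceil _).trans ?_
    exact_mod_cast (by omega : ⌈4 * (h : ℝ) / κ⌉₊ ≤ Fintype.card V)
  have hA2 : 4 * (h : ℝ) / κ1 ≤ Fintype.card V := by
    refine (Nat.le_ceil _).trans ?_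
    exact_mod_cast (by omega : ⌈4 * (h : ℝ) / κ1⌉₊ ≤ Fintype.card V)
  have hA3 : (h : ℝ) / κ2 ≤ Fintype.card V := by
    refine (Nat.le_ceil _).trans ?_
    exact_mod_cast (by omega : ⌈(h : ℝ) / κ2⌉₊ ≤ Fintype.card V)
  obtain ⟨R, hR⟩ : ∃ R : V → V × V → Prop,
      ∀ x p, R x p ↔ (G.Adj x p.1 ∧ G.Adj p.1 p.2 ∧ G.Adj x p.2) := ⟨_, fun _ _ => Iff.rfl⟩
  have hcl : (#(G.cliqueFinset 3)) ≤ {p : V × (V × V) | R p.1 p.2}.ncard := by
    have e1 : {p : V × (V × V) | R p.1 p.2}.ncard = #{p : V × (V × V) | R p.1 p.2} := by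
      rw [← Set.ncard_coe_finset]; congr 1; ext p; simp
    rw [e1]
    apply Finset.card_le_card_of_surjOn (fun p => ({p.1, p.2.1, p.2.2} : Finset V))
    intro s hs
    rw [Finset.mem_coe, SimpleGraph.mem_cliqueFinset_iff, SimpleGraph.is3Clique_iff] at hs
    obtain ⟨a, b, c, hab, hac, hbc, rfl⟩ := hs
    refine ⟨(a, (b, c)), ?_, rfl⟩
    rw [Finset.mem_coe, Finset.mem_filter, hR]
    exact ⟨mem_univ _, hab, hbc, hac⟩
  have hd1 : κ * Fintype.card V * Fintype.card (V × V) ≤
      ({p : V × (V × V) | R p.1 p.2}.ncard : ℝ) := by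
    have h1 : ((#(G.cliqueFinset 3) : ℕ) : ℝ) ≤ ({p : V × (V × V) | R p.1 p.2}.ncard : ℝ) := by
      exact_mod_cast hcl
    rw [Fintype.card_prod]
    push_cast
    calc _ = κ * (Fintype.card V : ℝ) ^ 3 := by ring
      _ ≤ _ := htri.trans h1
  obtain ⟨S1, hS1, hS1d⟩ := dense_common' R κ hκ hκ1 h hA1 hV0 hd1
  obtain ⟨R', hR'⟩ : ∃ R' : V → V → Prop, ∀ y z, R' y z ↔ ∀ x ∈ S1, R x (y, z) :=
    ⟨_, fun _ _ => Iff.rfl⟩
  have hd2 : κ1 * Fintype.card V * Fintype.card V ≤ ({p : V × V | R' p.1 p.2}.ncard : ℝ) := by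
    rw [Fintype.card_prod] at hS1d
    push_cast at hS1d
    have e : {p : V × V | R' p.1 p.2} = {b : V × V | ∀ a ∈ S1, R a b} := by
      ext p
      exact hR' p.1 p.2
    rw [e]
    calc _ = (κ / 2) * (κ / 4) ^ h * (Fintype.card V * Fintype.card V) := by
          rw [hκ1def]; ring
      _ ≤ _ := hS1d
  obtain ⟨S2, hS2, hS2d⟩ := dense_common' R' κ1 hκ1pos hκ1le h hA2 hV0 hd2
  have hZ : h ≤ {z : V | ∀ y ∈ S2, R' y z}.ncard := by
    have h1 : (h : ℝ) ≤ κ2 * Fintype.card V := by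
      rw [div_le_iff₀ hκ2pos] at hA3
      linarith
    have h2 := h1.trans hS2d
    exact_mod_cast h2
  have e3 : {z : V | ∀ y ∈ S2, R' y z}.ncard = #{z : V | ∀ y ∈ S2, R' y z} := by
    rw [← Set.ncard_coe_finset]; congr 1; ext p; simp
  rw [e3] at hZ
  obtain ⟨S3, hS3sub, hS3⟩ := Finset.exists_subset_card_eq hZ
  -- the three classes
  have key : ∀ x ∈ S1, ∀ y ∈ S2, ∀ z ∈ S3, G.Adj x y ∧ G.Adj y z ∧ G.Adj x z := by
    intro x hx y hy z hz
    have h1 := hS3sub hz
    rw [Finset.mem_filter] at h1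
    exact (hR _ _).1 ((hR' _ _).1 (h1.2 y hy) x hx)
  clear hZ hS2d hd2 hS1d hd1 hcl hR hR'
  obtain ⟨C⟩ := hH
  obtain ⟨S, hS0, hS1', hS2'⟩ : ∃ S : Fin 3 → Finset V, S 0 = S1 ∧ S 1 = S2 ∧ S 2 = S3 :=
    ⟨![S1, S2, S3], rfl, rfl, rfl⟩
  have hS : ∀ i, (S i).card = h := by
    intro i
    fin_cases i
    · exact hS0 ▸ hS1
    · exact hS1' ▸ hS2
    · exact hS2' ▸ hS3
  subst hS0 hS1' hS2'
  have hadj : ∀ i j, i ≠ j → ∀ x ∈ S i, ∀ y ∈ S j, G.Adj x y := by
    intro i j hij x hx y hy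
    have hne : ∀ k, (S k).Nonempty := by
      intro k
      rw [← Finset.card_pos, hS k, ← hS i]
      exact Finset.card_pos.2 ⟨x, hx⟩
    obtain ⟨u, hu⟩ := hne 0
    obtain ⟨v, hv⟩ := hne 1
    obtain ⟨w, hw⟩ := hne 2
    fin_cases i <;> fin_cases j
    · exact absurd rfl hij
    · exact (key x hx y hy w hw).1
    · exact (key x hx v hv y hy).2.2
    · exact (key y hy x hx w hw).1.symm
    · exact absurd rfl hij
    · exact (key u hu x hx y hy).2.1
    · exact (key y hy v hv x hx).2.2.symm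
    · exact (key u hu y hy x hx).2.1.symm
    · exact absurd rfl hij
  have e : ∀ i, Nonempty (W ≃ S i) := by
    intro i
    refine ⟨Fintype.equivOfCardEq ?_⟩
    rw [Fintype.card_coe, hS i]
  obtain ⟨e⟩ : Nonempty (∀ i, W ≃ S i) := ⟨fun i => (e i).some⟩
  refine ⟨⟨⟨fun w => (e (C w) w : V), ?_⟩, ?_⟩⟩
  · intro a b hab
    exact hadj _ _ (C.valid hab) _ (e (C a) a).2 _ (e (C b) b).2
  · intro a b hab
    by_cases hc : C a = C b
    · have h1 : (e (C a) a : V) = (e (C b) b : V) := hab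
      have h2 : ∀ i j (_ : i = j) (u v : W), ((e i u : V) = (e j v : V)) → u = v := by
        rintro i j rfl u v huv
        exact (e i).injective (Subtype.ext huv)
      exact h2 _ _ hc a b h1
    · exfalso
      have h1 := hadj _ _ hc _ (e (C a) a).2 _ (e (C b) b).2
      have h2 : (e (C a) a : V) = (e (C b) b : V) := hab
      rw [h2] at h1
      exact G.loopless.irrefl _ h1


theorem window_lemma {W : Type} [Fintype W] (H : SimpleGraph W)
    (hH : H.Colorable 3) (δ : ℝ) (hδ : 0 < δ) :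
    ∃ M0 : ℕ, ∀ M : ℕ, M0 ≤ M → ∀ G : SimpleGraph (Fin M), ¬ H.IsContained G →
      ∃ T : SimpleGraph (Fin M), T ≤ G ∧ T.CliqueFree 3 ∧
        ((G.edgeSet \ T.edgeSet).ncard : ℝ) ≤ δ * (M : ℝ) ^ 2 := by
  classical
  set κ : ℝ := min (SimpleGraph.triangleRemovalBound δ) 1 with hκdef
  have hκ : 0 < κ := lt_min (SimpleGraph.triangleRemovalBound_pos hδ) one_pos
  obtain ⟨M0, hM0⟩ := contained_of_many_triangles H hH κ hκ (min_le_right _ _)
  refine ⟨M0, fun M hM G hG => ?_⟩
  have h1 : ¬ (κ * (Fintype.card (Fin M) : ℝ) ^ 3 ≤ (#(G.cliqueFinset 3) : ℝ)) := by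
    intro hcon
    exact hG (hM0 (Fin M) G (by simpa using hM) hcon)
  rw [not_le] at h1
  have h2 : (#(G.cliqueFinset 3) : ℝ) <
      SimpleGraph.triangleRemovalBound δ * (Fintype.card (Fin M) : ℝ) ^ 3 := by
    refine h1.trans_le ?_
    exact mul_le_mul_of_nonneg_right (min_le_left _ _) (by positivity)
  obtain ⟨T, hTG, inst, hcard, hfree⟩ := SimpleGraph.triangle_removal h2
  refine ⟨T, hTG, hfree, ?_⟩
  have h3 : (G.edgeSet \ T.edgeSet).ncard + T.edgeSet.ncard = G.edgeSet.ncard :=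
    Set.ncard_sdiff_add_ncard_of_subset (SimpleGraph.edgeSet_mono hTG) (Set.toFinite _)
  have h4 : G.edgeSet.ncard = #G.edgeFinset := by
    rw [← Set.ncard_coe_finset, SimpleGraph.coe_edgeFinset]
  have h5 : T.edgeSet.ncard = #T.edgeFinset := by
    rw [← Set.ncard_coe_finset, SimpleGraph.coe_edgeFinset]
  rw [h4, h5] at h3
  have h6 : ((G.edgeSet \ T.edgeSet).ncard : ℝ) + (#T.edgeFinset : ℝ) = (#G.edgeFinset : ℝ) := by
    exact_mod_cast h3
  rw [Fintype.card_fin] at hcard
  push_cast at hcard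
  linarith

/-- The `r`-th power of the cycle on `n` vertices: two distinct vertices of `Fin n` are adjacent
when their distance along the cycle is at most `r`. -/
def cyclePower (n r : ℕ) : SimpleGraph (Fin n) where
  Adj i j := i ≠ j ∧ ∃ d : ℕ, d ≤ r ∧ ((i.val + d) % n = j.val ∨ (j.val + d) % n = i.val)
  symm := ⟨fun _ _ h => ⟨h.1.symm, h.2.imp fun _ h' => ⟨h'.1, h'.2.symm⟩⟩⟩
  loopless := ⟨fun _ h => h.1 rfl⟩

/-- `f n r` is the least `m` such that every subgraph of the cycle power with `m` edges contains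
a triangle. -/
noncomputable def f (n r : ℕ) : ℕ :=
  sInf {m : ℕ | ∀ F : SimpleGraph (Fin n), F ≤ cyclePower n r → F.edgeSet.ncard = m →
    ¬ F.CliqueFree 3}

/-- The constant `c` of the problem. -/
noncomputable def c : ℝ :=
  Filter.limsup (fun r : ℕ => Filter.limsup (fun n : ℕ => (f n r : ℝ) / (r * n)) Filter.atTop)
    Filter.atTop

/-- the vertex `i + d` -/
def step {n : ℕ} (i : Fin n) (d : ℕ) : Fin n := ⟨(i.val + d) % n, Nat.mod_lt _ i.pos⟩

theorem edge_form {n r : ℕ} {F : SimpleGraph (Fin n)} (hF : F ≤ cyclePower n r)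
    {e : Sym2 (Fin n)} (he : e ∈ F.edgeSet) :
    ∃ (i : Fin n) (d : ℕ), 1 ≤ d ∧ d ≤ r ∧ e = s(i, step i d) := by
  induction e using Sym2.ind with
  | _ i j =>
    rw [SimpleGraph.mem_edgeSet] at he
    obtain ⟨hne, d, hd, h⟩ := hF he
    rcases h with h | h
    · refine ⟨i, d, ?_, hd, ?_⟩
      · rcases Nat.eq_zero_or_pos d with h0 | h0
        · exfalso
          subst h0
          rw [Nat.add_zero, Nat.mod_eq_of_lt i.2] at h
          exact hne (Fin.ext h)
        · exact h0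
      · congr 1
        exact Fin.ext h.symm
    · refine ⟨j, d, ?_, hd, ?_⟩
      · rcases Nat.eq_zero_or_pos d with h0 | h0
        · exfalso
          subst h0
          rw [Nat.add_zero, Nat.mod_eq_of_lt j.2] at h
          exact hne (Fin.ext h.symm)
        · exact h0
      · rw [Sym2.eq_swap]
        congr 1
        exact Fin.ext h.symm

/-- the set of edges starting in `B` -/
def startEdges {n : ℕ} (r : ℕ) (B : Set (Fin n)) : Set (Sym2 (Fin n)) :=
  (fun p : Fin n × Fin r => s(p.1, step p.1 (p.2.val + 1))) '' (B ×ˢ Set.univ)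

theorem startEdges_card {n : ℕ} (r : ℕ) (B : Set (Fin n)) :
    (startEdges r B).ncard ≤ r * B.ncard := by
  unfold startEdges
  refine (Set.ncard_image_le (Set.toFinite _)).trans ?_
  rw [Set.ncard_prod, Set.ncard_univ, Nat.card_eq_fintype_card, Fintype.card_fin, mul_comm]

theorem edges_le {n r : ℕ} {F : SimpleGraph (Fin n)} (hF : F ≤ cyclePower n r) :
    F.edgeSet.ncard ≤ r * n := by
  have h1 : F.edgeSet ⊆ startEdges r Set.univ := by
    intro e he
    obtain ⟨i, d, h1, h2, rfl⟩ := edge_form hF he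
    exact ⟨(i, ⟨d - 1, by omega⟩), by simp, by simp [Nat.sub_add_cancel h1]⟩
  refine (Set.ncard_le_ncard h1 (Set.toFinite _)).trans ?_
  refine (startEdges_card r Set.univ).trans ?_
  rw [Set.ncard_univ, Nat.card_eq_fintype_card, Fintype.card_fin]

theorem f_mem (n r : ℕ) : ∀ F : SimpleGraph (Fin n), F ≤ cyclePower n r →
    F.edgeSet.ncard = f n r → ¬ F.CliqueFree 3 := by
  have hne : {m : ℕ | ∀ F : SimpleGraph (Fin n), F ≤ cyclePower n r → F.edgeSet.ncard = m →
      ¬ F.CliqueFree 3}.Nonempty := by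
    refine ⟨r * n + 1, fun F hF hcard => ?_⟩
    have := edges_le hF
    omega
  exact Nat.sInf_mem hne

theorem f_le (n r : ℕ) : f n r ≤ r * n + 1 := by
  apply Nat.sInf_le
  intro F hF hcard
  have := edges_le hF
  omega

theorem lt_f {n r : ℕ} {T : SimpleGraph (Fin n)} (hT : T ≤ cyclePower n r)
    (hfree : T.CliqueFree 3) : T.edgeSet.ncard < f n r := by
  by_contra hcon
  push Not at hcon
  obtain ⟨S, hS, hcard⟩ := Set.exists_subset_card_eq hcon
  set F : SimpleGraph (Fin n) := SimpleGraph.fromEdgeSet S with hF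
  have hFe : F.edgeSet = S := by
    rw [hF, SimpleGraph.edgeSet_fromEdgeSet]
    ext e
    constructor
    · intro h; exact h.1
    · intro h
      exact ⟨h, T.not_isDiag_of_mem_edgeSet (hS h)⟩
  have hFT : F ≤ T := by
    rw [← SimpleGraph.edgeSet_subset_edgeSet, hFe]
    exact hS
  exact f_mem n r F (hFT.trans hT) (by rw [hFe, hcard]) (hfree.anti hFT)


/-- number of bad starting points -/
theorem bad_card {n r M : ℕ} (hM : 0 < M) :
    {i : Fin n | M ≤ i.val % M + r ∨ n ≤ i.val + r ∨ (n / M) * M ≤ i.val}.ncard ≤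
      r * (n / M + 1) + r + M := by
  classical
  have h1 : {i : Fin n | M ≤ i.val % M + r}.ncard ≤ r * (n / M + 1) := by
    have : {i : Fin n | M ≤ i.val % M + r}.ncard ≤
        ((Finset.range r ×ˢ Finset.range (n / M + 1) : Finset (ℕ × ℕ)) : Set (ℕ × ℕ)).ncard := by
      apply Set.ncard_le_ncard_of_injOn (fun i : Fin n => (i.val % M + r - M, i.val / M))
      · intro i hi
        have hi' : M ≤ i.val % M + r := hi
        have h2 := Nat.mod_lt i.val hM
        have h3 : i.val / M ≤ n / M := Nat.div_le_div_right i.2.le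
        simp only [Finset.coe_product, Finset.coe_range, Set.mem_prod, Set.mem_Iio]
        omega
      · intro i hi j hj hij
        have hi' : M ≤ i.val % M + r := hi
        have hj' : M ≤ j.val % M + r := hj
        simp only [Prod.mk.injEq] at hij
        have h4 : i.val % M = j.val % M := by omega
        apply Fin.ext
        rw [← Nat.div_add_mod i.val M, ← Nat.div_add_mod j.val M, h4, hij.2]
    rw [Set.ncard_coe_finset, Finset.card_product, Finset.card_range, Finset.card_range] at this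
    exact this
  have h2 : {i : Fin n | n ≤ i.val + r}.ncard ≤ r := by
    have : {i : Fin n | n ≤ i.val + r}.ncard ≤ ((Finset.range r : Finset ℕ) : Set ℕ).ncard := by
      apply Set.ncard_le_ncard_of_injOn (fun i : Fin n => i.val + r - n)
      · intro i hi
        have hi' : n ≤ i.val + r := hi
        have := i.2
        simp only [Finset.coe_range, Set.mem_Iio]
        omega
      · intro i hi j hj hij
        have hi' : n ≤ i.val + r := hi
        have hj' : n ≤ j.val + r := hj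
        simp only at hij
        apply Fin.ext
        omega
    rwa [Set.ncard_coe_finset, Finset.card_range] at this
  have h3 : {i : Fin n | (n / M) * M ≤ i.val}.ncard ≤ M := by
    have : {i : Fin n | (n / M) * M ≤ i.val}.ncard ≤ ((Finset.range M : Finset ℕ) : Set ℕ).ncard := by
      apply Set.ncard_le_ncard_of_injOn (fun i : Fin n => i.val - (n / M) * M)
      · intro i hi
        have hi' : (n / M) * M ≤ i.val := hi
        have h4 := i.2
        have h5 := Nat.div_add_mod n M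
        have h6 := Nat.mod_lt n hM
        rw [mul_comm] at h5
        simp only [Finset.coe_range, Set.mem_Iio]
        omega
      · intro i hi j hj hij
        have hi' : (n / M) * M ≤ i.val := hi
        have hj' : (n / M) * M ≤ j.val := hj
        simp only at hij
        apply Fin.ext
        omega
    rwa [Set.ncard_coe_finset, Finset.card_range] at this
  have h4 : {i : Fin n | M ≤ i.val % M + r ∨ n ≤ i.val + r ∨ (n / M) * M ≤ i.val} =
      {i : Fin n | M ≤ i.val % M + r} ∪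
        ({i : Fin n | n ≤ i.val + r} ∪ {i : Fin n | (n / M) * M ≤ i.val}) := by
    ext i; simp
  rw [h4]
  refine (Set.ncard_union_le _ _).trans ?_
  have h5 := Set.ncard_union_le {i : Fin n | n ≤ i.val + r} {i : Fin n | (n / M) * M ≤ i.val}
  omega

/-- the `k`-th window -/
def emb {n M : ℕ} (k : Fin (n / M)) (a : Fin M) : Fin n :=
  ⟨k.val * M + a.val, by
    have h1 := k.2
    have h2 := a.2
    have h3 : (k.val + 1) * M ≤ (n / M) * M := Nat.mul_le_mul_right _ h1
    have h4 : (n / M) * M ≤ n := Nat.div_mul_le_self n M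
    rw [Nat.add_mul] at h3
    omega⟩

theorem emb_inj {n M : ℕ} {k k' : Fin (n / M)} {a a' : Fin M} (h : emb k a = emb k' a') :
    k = k' ∧ a = a' := by
  have h1 : k.val * M + a.val = k'.val * M + a'.val := congrArg Fin.val h
  have ha := a.2
  have ha' := a'.2
  have hM : 0 < M := by omega
  have h2 : (k.val * M + a.val) / M = k.val := by
    rw [mul_comm, Nat.mul_add_div hM, Nat.div_eq_of_lt ha, add_zero]
  have h3 : (k'.val * M + a'.val) / M = k'.val := by
    rw [mul_comm, Nat.mul_add_div hM, Nat.div_eq_of_lt ha', add_zero]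
  have h4 : k.val = k'.val := by rw [← h2, ← h3, h1]
  refine ⟨Fin.ext h4, Fin.ext ?_⟩
  rw [h4] at h1
  omega

theorem windows {n r M : ℕ} (hM : 0 < M) {F : SimpleGraph (Fin n)}
    (hF : F ≤ cyclePower n r) (δ : ℝ)
    (hwin : ∀ k : Fin (n / M), ∃ T : SimpleGraph (Fin M), T ≤ F.comap (emb k) ∧ T.CliqueFree 3 ∧
      (((F.comap (emb k)).edgeSet \ T.edgeSet).ncard : ℝ) ≤ δ * (M : ℝ) ^ 2) :
    ∃ T : SimpleGraph (Fin n), T ≤ F ∧ T.CliqueFree 3 ∧
      (F.edgeSet.ncard : ℝ) ≤ T.edgeSet.ncard +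
        ((r * (r * (n / M + 1) + r + M) : ℕ) : ℝ) + ((n / M : ℕ) : ℝ) * (δ * (M : ℝ) ^ 2) := by
  classical
  choose Tk hTk1 hTk2 hTk3 using hwin
  let T : SimpleGraph (Fin n) :=
    { Adj := fun i j => ∃ k a b, emb k a = i ∧ emb k b = j ∧ (Tk k).Adj a b
      symm := ⟨fun i j ⟨k, a, b, h1, h2, h3⟩ => ⟨k, b, a, h2, h1, h3.symm⟩⟩
      loopless := ⟨fun i ⟨k, a, b, h1, h2, h3⟩ => by
        have := (emb_inj (h1.trans h2.symm)).2
        rw [this] at h3
        exact (Tk k).loopless.irrefl _ h3⟩ }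
  have hTadj : ∀ i j, T.Adj i j ↔ ∃ k a b, emb k a = i ∧ emb k b = j ∧ (Tk k).Adj a b :=
    fun i j => Iff.rfl
  have hTF : T ≤ F := by
    intro i j hij
    obtain ⟨k, a, b, rfl, rfl, h3⟩ := (hTadj i j).1 hij
    exact hTk1 k h3
  have hfree : T.CliqueFree 3 := by
    intro s hs
    rw [SimpleGraph.is3Clique_iff] at hs
    obtain ⟨x, y, z, hxy, hxz, hyz, -⟩ := hs
    obtain ⟨k, a, b, h1, h2, h3⟩ := (hTadj _ _).1 hxy
    obtain ⟨k', a', b', h1', h2', h3'⟩ := (hTadj _ _).1 hxz
    obtain ⟨k'', a'', b'', h1'', h2'', h3''⟩ := (hTadj _ _).1 hyz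
    obtain ⟨rfl, rfl⟩ := emb_inj (h1.trans h1'.symm)
    obtain ⟨rfl, rfl⟩ := emb_inj (h2.trans h1''.symm)
    obtain ⟨-, rfl⟩ := emb_inj (h2'.trans h2''.symm)
    exact hTk2 _ _ (SimpleGraph.is3Clique_triple_iff.2 ⟨h3, h3', h3''⟩)
  refine ⟨T, hTF, hfree, ?_⟩
  set B : Set (Fin n) := {i : Fin n | M ≤ i.val % M + r ∨ n ≤ i.val + r ∨ (n / M) * M ≤ i.val} with hB
  have hcover : F.edgeSet ⊆ T.edgeSet ∪ (startEdges r B ∪
      ⋃ k : Fin (n / M), (Sym2.map (emb k)) '' ((F.comap (emb k)).edgeSet \ (Tk k).edgeSet)) := by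
    intro e he
    obtain ⟨i, d, hd1, hd2, rfl⟩ := edge_form hF he
    by_cases hi : i ∈ B
    · right; left
      exact ⟨(i, ⟨d - 1, by omega⟩), by simp [hi], by simp [Nat.sub_add_cancel hd1]⟩
    · rw [hB, Set.mem_ofPred_eq] at hi
      push Not at hi
      obtain ⟨hi1, hi2, hi3⟩ := hi
      have hk : i.val / M < n / M := by
        rw [Nat.div_lt_iff_lt_mul hM]; exact hi3
      have hmod := Nat.mod_lt i.val hM
      have hdm := Nat.div_add_mod i.val M
      let k : Fin (n / M) := ⟨i.val / M, hk⟩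
      let a : Fin M := ⟨i.val % M, hmod⟩
      let b : Fin M := ⟨i.val % M + d, by omega⟩
      have hea : emb k a = i := by
        apply Fin.ext
        show i.val / M * M + i.val % M = i.val
        rw [mul_comm]; exact hdm
      have heb : emb k b = step i d := by
        apply Fin.ext
        show i.val / M * M + (i.val % M + d) = (i.val + d) % n
        have hlt : i.val + d < n := by omega
        rw [Nat.mod_eq_of_lt hlt, mul_comm]
        omega
      rw [← hea] at he ⊢
      have heb' : emb k b = step (emb k a) d := by rw [heb, hea]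
      rw [← heb'] at he ⊢
      rw [SimpleGraph.mem_edgeSet] at he
      by_cases hT : (Tk k).Adj a b
      · left
        rw [SimpleGraph.mem_edgeSet, hTadj]
        exact ⟨k, a, b, rfl, rfl, hT⟩
      · right; right
        rw [Set.mem_iUnion]
        refine ⟨k, s(a, b), ⟨?_, ?_⟩, rfl⟩
        · rw [SimpleGraph.mem_edgeSet, SimpleGraph.comap_adj]; exact he
        · rw [SimpleGraph.mem_edgeSet]; exact hT
  have h1 := Set.ncard_le_ncard hcover (Set.toFinite _)
  have h2 := Set.ncard_union_le T.edgeSet (startEdges r B ∪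
      ⋃ k : Fin (n / M), (Sym2.map (emb k)) '' ((F.comap (emb k)).edgeSet \ (Tk k).edgeSet))
  have h3 := Set.ncard_union_le (startEdges r B)
      (⋃ k : Fin (n / M), (Sym2.map (emb k)) '' ((F.comap (emb k)).edgeSet \ (Tk k).edgeSet))
  have h4 := (startEdges_card r B).trans (Nat.mul_le_mul_left r (bad_card hM))
  have h5 := Set.ncard_iUnion_le_of_fintype (fun k : Fin (n / M) =>
    (Sym2.map (emb k)) '' ((F.comap (emb k)).edgeSet \ (Tk k).edgeSet))
  have h6 : ((∑ k : Fin (n / M), ((Sym2.map (emb k)) ''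
      ((F.comap (emb k)).edgeSet \ (Tk k).edgeSet)).ncard : ℕ) : ℝ) ≤
      ((n / M : ℕ) : ℝ) * (δ * (M : ℝ) ^ 2) := by
    push_cast
    calc _ ≤ ∑ k : Fin (n / M), (δ * (M : ℝ) ^ 2) := by
          refine Finset.sum_le_sum fun k _ => ?_
          refine le_trans ?_ (hTk3 k)
          exact_mod_cast Set.ncard_image_le (Set.toFinite _)
      _ = _ := by rw [Finset.sum_const, Finset.card_univ, Fintype.card_fin, nsmul_eq_mul]
  have h7 : F.edgeSet.ncard ≤ T.edgeSet.ncard + (r * (r * (n / M + 1) + r + M)) +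
      (∑ k : Fin (n / M), ((Sym2.map (emb k)) ''
        ((F.comap (emb k)).edgeSet \ (Tk k).edgeSet)).ncard) := by
    omega
  have h8 : (F.edgeSet.ncard : ℝ) ≤ T.edgeSet.ncard +
      ((r * (r * (n / M + 1) + r + M) : ℕ) : ℝ) +
      ((∑ k : Fin (n / M), ((Sym2.map (emb k)) ''
        ((F.comap (emb k)).edgeSet \ (Tk k).edgeSet)).ncard : ℕ) : ℝ) := by
    exact_mod_cast h7
  linarith


theorem quot_le {n r : ℕ} (hr : 1 ≤ r) (hn : 1 ≤ n) : (f n r : ℝ) / (r * n) ≤ 2 := by
  have h1 : (f n r : ℝ) ≤ r * n + 1 := by exact_mod_cast f_le n r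
  have h2 : (1 : ℝ) ≤ r := by exact_mod_cast hr
  have h3 : (1 : ℝ) ≤ n := by exact_mod_cast hn
  have h4 : (1 : ℝ) ≤ r * n := by nlinarith
  rw [div_le_iff₀ (by linarith)]
  linarith

theorem inner_bdd {r : ℕ} (hr : 1 ≤ r) :
    Filter.IsBoundedUnder (· ≤ ·) Filter.atTop (fun n : ℕ => (f n r : ℝ) / (r * n)) := by
  refine ⟨2, ?_⟩
  rw [Filter.eventually_map]
  filter_upwards [Filter.eventually_ge_atTop 1] with n hn
  exact quot_le hr hn

theorem inner_cobdd (r : ℕ) :
    Filter.IsCoboundedUnder (· ≤ ·) Filter.atTop (fun n : ℕ => (f n r : ℝ) / (r * n)) := by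
  apply Filter.IsBoundedUnder.isCoboundedUnder_le
  refine ⟨0, ?_⟩
  rw [Filter.eventually_map]
  exact Filter.Eventually.of_forall fun n => by positivity

theorem inner_le {r : ℕ} (hr : 1 ≤ r) :
    Filter.limsup (fun n : ℕ => (f n r : ℝ) / (r * n)) Filter.atTop ≤ 2 := by
  apply Filter.limsup_le_of_le (inner_cobdd r)
  filter_upwards [Filter.eventually_ge_atTop 1] with n hn
  exact quot_le hr hn

theorem eventually_small (η : ℝ) (hη : 0 < η) :
    ∃ r1 : ℕ, ∀ r, r1 ≤ r → ∃ n1 : ℕ, ∀ n, n1 ≤ n → (f n r : ℝ) / (r * n) < c + η := by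
  have h1 : Filter.limsup (fun r : ℕ => Filter.limsup (fun n : ℕ => (f n r : ℝ) / (r * n))
      Filter.atTop) Filter.atTop < c + η := by
    show c < c + η
    linarith
  have hb : Filter.IsBoundedUnder (· ≤ ·) Filter.atTop
      (fun r : ℕ => Filter.limsup (fun n : ℕ => (f n r : ℝ) / (r * n)) Filter.atTop) := by
    refine ⟨2, ?_⟩
    rw [Filter.eventually_map]
    filter_upwards [Filter.eventually_ge_atTop 1] with r hr
    exact inner_le hr
  have h2 := Filter.eventually_lt_of_limsup_lt h1 hb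
  rw [Filter.eventually_atTop] at h2
  obtain ⟨r1, hr1⟩ := h2
  refine ⟨max r1 1, fun r hr => ?_⟩
  have h3 := hr1 r (le_trans (le_max_left _ _) hr)
  have h4 := Filter.eventually_lt_of_limsup_lt h3 (inner_bdd (le_trans (le_max_right _ _) hr))
  rw [Filter.eventually_atTop] at h4
  exact h4

/-- **Positive answer.** Every fixed three-chromatic graph has asymptotically the same edge
threshold in powers of cycles as the triangle. -/
theorem result : ∀ (W : Type) [Fintype W] (H : SimpleGraph W), H.chromaticNumber = 3 →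
    ∀ ε : ℝ, 0 < ε → ∃ r₀ : ℕ, ∀ r : ℕ, r₀ ≤ r → ∃ n₀ : ℕ, ∀ n : ℕ, n₀ ≤ n →
      ∀ F : SimpleGraph (Fin n), F ≤ cyclePower n r →
        (c + ε) * ((r : ℝ) * (n : ℝ)) ≤ (F.edgeSet.ncard : ℝ) → H.IsContained F := by
  intro W _ H hχ ε hε
  have hcol : H.Colorable 3 := by
    rw [← SimpleGraph.chromaticNumber_le_iff_colorable, hχ]
    rfl
  set L : ℕ := ⌈8 / ε⌉₊ + 1 with hL
  have hL1 : 1 ≤ L := by omega
  have hL8 : 8 / ε ≤ L := by
    refine (Nat.le_ceil _).trans ?_
    rw [hL]; push_cast; linarith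
  have hL0 : (0 : ℝ) < L := by exact_mod_cast hL1
  have hLε : 8 ≤ ε * L := by
    rw [div_le_iff₀ hε] at hL8; linarith
  set δ : ℝ := ε / (8 * L) with hδdef
  have hδ : 0 < δ := by positivity
  obtain ⟨M0, hM0⟩ := window_lemma H hcol δ hδ
  obtain ⟨r1, hr1⟩ := eventually_small (ε / 2) (by positivity)
  refine ⟨max r1 (max M0 1), fun r hr => ?_⟩
  have hrr1 : r1 ≤ r := le_trans (le_max_left _ _) hr
  have hrM0 : M0 ≤ r := le_trans (le_trans (le_max_left _ _) (le_max_right _ _)) hr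
  have hr1' : 1 ≤ r := le_trans (le_trans (le_max_right _ _) (le_max_right _ _)) hr
  obtain ⟨n1, hn1⟩ := hr1 r hrr1
  refine ⟨max n1 (⌈8 * (2 + L) * r / ε⌉₊ + 1), fun n hn F hF hcard => ?_⟩
  have hnn1 : n1 ≤ n := le_trans (le_max_left _ _) hn
  have hn2 : ⌈8 * (2 + L) * r / ε⌉₊ + 1 ≤ n := le_trans (le_max_right _ _) hn
  have hn1' : 1 ≤ n := by omega
  have hnbig : 8 * (2 + L) * r / ε ≤ n := by
    refine (Nat.le_ceil _).trans ?_
    exact_mod_cast (by omega : ⌈8 * (2 + L) * r / ε⌉₊ ≤ n)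
  by_contra hcon
  set M : ℕ := L * r with hM
  have hMpos : 0 < M := Nat.mul_pos (by omega) (by omega)
  have hrM : r ≤ M := Nat.le_mul_of_pos_left r (by omega)
  have hM0M : M0 ≤ M := hrM0.trans hrM
  have hwin : ∀ k : Fin (n / M), ∃ T : SimpleGraph (Fin M), T ≤ F.comap (emb k) ∧
      T.CliqueFree 3 ∧
      (((F.comap (emb k)).edgeSet \ T.edgeSet).ncard : ℝ) ≤ δ * (M : ℝ) ^ 2 := by
    intro k
    apply hM0 M hM0M
    intro hcont
    apply hcon
    refine hcont.trans ?_
    have hinj : Function.Injective (emb k : Fin M → Fin n) := fun a b h => (emb_inj h).2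
    exact ⟨⟨⟨emb k, fun {a b} h => h⟩, hinj⟩⟩
  obtain ⟨T, hTF, hTfree, hTcard⟩ := windows hMpos hF δ hwin
  have h1 := lt_f (hTF.trans hF) hTfree
  have h2 := hn1 n hnn1
  have hr0 : (0 : ℝ) < r := by exact_mod_cast hr1'
  have hn0 : (0 : ℝ) < n := by exact_mod_cast hn1'
  rw [div_lt_iff₀ (by positivity)] at h2
  have h3 : (T.edgeSet.ncard : ℝ) < f n r := by exact_mod_cast h1
  have hMr : (M : ℝ) = L * r := by rw [hM]; push_cast; ring
  have hq : ((n / M : ℕ) : ℝ) ≤ n / M := Nat.cast_div_le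
  have hq' : ((n / M : ℕ) : ℝ) * M ≤ n := by
    rw [le_div_iff₀ (by exact_mod_cast hMpos)] at hq
    exact hq
  have hq'' : ((n / M : ℕ) : ℝ) * (L * r) ≤ n := by rw [← hMr]; exact hq'
  have hq0 : (0 : ℝ) ≤ ((n / M : ℕ) : ℝ) := by positivity
  have e1 : (r : ℝ) * (r * (n / M : ℕ)) ≤ ε / 8 * (r * n) := by
    have h5 : 8 * (r * ((n / M : ℕ) : ℝ)) ≤ ε * n := by
      calc 8 * (r * ((n / M : ℕ) : ℝ)) ≤ (ε * L) * (r * ((n / M : ℕ) : ℝ)) :=
            mul_le_mul_of_nonneg_right hLε (by positivity)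
        _ = ε * (((n / M : ℕ) : ℝ) * (L * r)) := by ring
        _ ≤ ε * n := mul_le_mul_of_nonneg_left hq'' hε.le
    nlinarith
  have e2 : (r : ℝ) * (r + r + M) ≤ ε / 8 * (r * n) := by
    rw [div_le_iff₀ hε] at hnbig
    rw [hMr]
    nlinarith
  have e3 : ((n / M : ℕ) : ℝ) * (δ * (M : ℝ) ^ 2) ≤ ε / 8 * (r * n) := by
    have h6 : δ * M = ε / 8 * r := by
      rw [hδdef, hMr]; field_simp
    calc ((n / M : ℕ) : ℝ) * (δ * (M : ℝ) ^ 2) = (((n / M : ℕ) : ℝ) * M) * (δ * M) := by ring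
      _ ≤ n * (δ * M) := mul_le_mul_of_nonneg_right hq' (by positivity)
      _ = _ := by rw [h6]; ring
  have e4 : ((r * (r * (n / M + 1) + r + M) : ℕ) : ℝ) =
      (r : ℝ) * (r * (n / M : ℕ)) + (r : ℝ) * (r + r + M) := by
    push_cast; ring
  rw [e4] at hTcard
  have e5 : 0 < ε * (r * n) := by positivity
  have e6 : (c + ε) * ((r : ℝ) * (n : ℝ)) = (c + ε / 2) * ((r : ℝ) * n) + ε / 2 * (r * n) := by ring
  nlinarith

end Pool.Agent.Results.MP_f19a21_co.CyclePowers
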